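import Pool.Agent.H309.DF.Stm
import Mathlib

set_option autoImplicit false

open Set Filter Topology MeasureTheory
open scoped ENNReal

namespace Pool.Agent.H737.DF

open Pool.Agent.H309.DF

theorem tCoSecond : Pool.Agent.H309.DF.CoSecond := by
  intro a ha g gy gyy hg hgy hgyy hd hdd hga hga' m
  set μ : ℝ := mu a m with hμ
  have hle : -a ≤ a := by linarith
  have hU : uIcc (-a) a = Icc (-a) a := uIcc_of_le hle
  have hmin : min (-a) a = -a := min_eq_left hle
  have hmax : max (-a) a = a := max_eq_right hle
  have hC : Continuous (fun y : ℝ => Real.cos (μ * (y + a))) := by fun_prop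
  have hS : Continuous (fun y : ℝ => Real.sin (μ * (y + a))) := by fun_prop
  have hdl : ∀ x : ℝ, HasDerivAt (fun y : ℝ => μ * (y + a)) μ x := by
    intro x
    simpa using ((hasDerivAt_id x).add_const a).const_mul μ
  have hdC : ∀ x : ℝ, HasDerivAt (fun y : ℝ => Real.cos (μ * (y + a)))
      (-(μ * Real.sin (μ * (x + a)))) x := by
    intro x
    have h := (hdl x).cos
    have e : -Real.sin (μ * (x + a)) * μ = -(μ * Real.sin (μ * (x + a))) := by ring
    rw [e] at h
    exact h
  have hdS : ∀ x : ℝ, HasDerivAt (fun y : ℝ => Real.sin (μ * (y + a)))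
      (μ * Real.cos (μ * (x + a))) x := by
    intro x
    have h := (hdl x).sin
    have e : Real.cos (μ * (x + a)) * μ = μ * Real.cos (μ * (x + a)) := by ring
    rw [e] at h
    exact h
  have e1 := intervalIntegral.integral_mul_deriv_eq_deriv_mul_of_hasDerivAt
    (u := g) (v := fun y : ℝ => Real.cos (μ * (y + a))) (u' := gy)
    (v' := fun y : ℝ => -(μ * Real.sin (μ * (y + a)))) (a := -a) (b := a)
    (by rw [hU]; exact hg) hC.continuousOn
    (by rw [hmin, hmax]; exact hd) (fun x _ => hdC x)
    (by apply ContinuousOn.intervalIntegrable; rw [hU]; exact hgy)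
    ((by fun_prop : Continuous (fun y : ℝ => -(μ * Real.sin (μ * (y + a))))).intervalIntegrable _ _)
  have e2 := intervalIntegral.integral_mul_deriv_eq_deriv_mul_of_hasDerivAt
    (u := gy) (v := fun y : ℝ => Real.sin (μ * (y + a))) (u' := gyy)
    (v' := fun y : ℝ => μ * Real.cos (μ * (y + a))) (a := -a) (b := a)
    (by rw [hU]; exact hgy) hS.continuousOn
    (by rw [hmin, hmax]; exact hdd) (fun x _ => hdS x)
    (by apply ContinuousOn.intervalIntegrable; rw [hU]; exact hgyy)
    ((by fun_prop : Continuous (fun y : ℝ => μ * Real.cos (μ * (y + a)))).intervalIntegrable _ _)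
  have hs1 : Real.sin (μ * (a + a)) = 0 := by
    have : μ * (a + a) = ((m + 1 : ℕ) : ℝ) * Real.pi := by
      rw [hμ]; unfold mu; push_cast; field_simp
      ring
    rw [this]
    exact Real.sin_nat_mul_pi _
  have hs2 : Real.sin (μ * (-a + a)) = 0 := by simp
  simp only [hga, hga', zero_mul, sub_zero, zero_sub] at e1
  simp only [hs1, hs2, mul_zero, sub_zero, zero_sub] at e2
  have e1' : μ * ∫ y in (-a)..a, g y * Real.sin (μ * (y + a)) =
      ∫ y in (-a)..a, gy y * Real.cos (μ * (y + a)) := by
    have h : ∫ y in (-a)..a, g y * -(μ * Real.sin (μ * (y + a))) =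
        -(μ * ∫ y in (-a)..a, g y * Real.sin (μ * (y + a))) := by
      rw [← intervalIntegral.integral_const_mul, ← intervalIntegral.integral_neg]
      congr 1
      ext y
      ring
    rw [h] at e1
    linarith
  have e2' : μ * ∫ y in (-a)..a, gy y * Real.cos (μ * (y + a)) =
      -∫ y in (-a)..a, gyy y * Real.sin (μ * (y + a)) := by
    rw [← e2, ← intervalIntegral.integral_const_mul]
    congr 1
    ext y
    ring
  unfold co sn
  rw [← hμ]
  calc μ ^ 2 * (1 / a * ∫ y in (-a)..a, g y * Real.sin (μ * (y + a)))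
      = 1 / a * (μ * (μ * ∫ y in (-a)..a, g y * Real.sin (μ * (y + a)))) := by ring
    _ = _ := by rw [e1', e2']; ring

end Pool.Agent.H737.DF
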